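import Pool.Agent.H73.Blk.Params

/-!
# Size of almost regular resolution refutations, in the direction of SETH

Some unsatisfiable `k`-CNF formulas need size `2 ^ ((1 - H(δ) - o_k(1)) n)` for all resolution
refutations which on each path are irregular on at most `δ n` variables.
-/

open Finset Pool.Agent.H73.Xor Pool.Agent.H73.Blk

namespace Pool.Agent.Results.MP_c62aed_lc.AlmostRegularSETH

/-- On every path from the root, at most `d` variables are resolved on more than once. -/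
def AlmostRegular {n N : ℕ} {F : CNF n} (π : Refutation F N) (d : ℝ) : Prop :=
  ∀ (t : Fin N) (l : List (Fin n)), π.Path π.root t l →
    ((univ.filter fun i => 2 ≤ l.count i).card : ℝ) ≤ d

lemma card_agree {n : ℕ} (T : Finset (Fin n)) (y : Fin n → Bool) :
    (univ.filter fun x : Fin n → Bool => ∀ i ∈ T, x i = y i).card = 2 ^ Tᶜ.card := by
  have : (univ.filter fun x : Fin n → Bool => ∀ i ∈ T, x i = y i) =
      Fintype.piFinset fun i => if i ∈ T then {y i} else univ := by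
    ext x
    simp only [mem_filter, mem_univ, true_and, Fintype.mem_piFinset]
    refine forall_congr' fun i => ?_
    by_cases h : i ∈ T <;> simp [h]
  rw [this, Fintype.card_piFinset]
  have h2 : ∀ i : Fin n, (if i ∈ T then ({y i} : Finset Bool) else univ).card =
      if i ∈ T then 1 else 2 := by
    intro i; split_ifs <;> simp
  rw [Finset.prod_congr rfl (fun i _ => h2 i), Finset.prod_ite, Finset.prod_const_one, one_mul,
    Finset.prod_const]
  congr 2
  ext i; simp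

lemma pow_add_one_le {q n e : ℕ} (hq : 0 < q) (h : n ≤ q * e) :
    (q + 1) ^ n ≤ q ^ n * 4 ^ e := by
  have hqR : (0 : ℝ) < q := by exact_mod_cast hq
  have h1 : ((q : ℝ) + 1) ^ n ≤ (q : ℝ) ^ n * 4 ^ e := by
    calc ((q : ℝ) + 1) ^ n = (q : ℝ) ^ n * (1 / q + 1) ^ n := by
          rw [← mul_pow]
          congr 1
          field_simp
          ring
      _ ≤ (q : ℝ) ^ n * (Real.exp (1 / q)) ^ n := by
          refine mul_le_mul_of_nonneg_left ?_ (by positivity)
          exact pow_le_pow_left₀ (by positivity) (Real.add_one_le_exp _) n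
      _ = (q : ℝ) ^ n * Real.exp (n / q) := by
          rw [← Real.exp_nat_mul]; congr 2; ring
      _ ≤ (q : ℝ) ^ n * Real.exp e := by
          refine mul_le_mul_of_nonneg_left ?_ (by positivity)
          apply Real.exp_le_exp.2
          rw [div_le_iff₀ hqR]
          have : (n : ℝ) ≤ q * e := by exact_mod_cast h
          linarith
      _ ≤ (q : ℝ) ^ n * 4 ^ e := mul_le_mul_of_nonneg_left (exp_nat_le e) (by positivity)
  exact_mod_cast h1

/-- the number of small subsets -/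
lemma card_ball_le {n q e : ℕ} (w : ℕ) (hq : 0 < q) (h : n ≤ q * e) :
    ((univ : Finset (Finset (Fin n))).filter fun S => S.card ≤ w).card ≤ q ^ w * 4 ^ e := by
  have h1 : q ^ n * ((univ : Finset (Finset (Fin n))).filter fun S => S.card ≤ w).card ≤
      q ^ w * (q + 1) ^ n := by
    have h2 : (q + 1) ^ n = ∑ S : Finset (Fin n), q ^ (n - S.card) := by
      have := Finset.sum_pow_mul_eq_add_pow (1 : ℕ) q (univ : Finset (Fin n))
      rw [powerset_univ, card_univ, Fintype.card_fin] at this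
      rw [add_comm q 1, ← this]
      exact Finset.sum_congr rfl fun S _ => by rw [one_pow, one_mul]
    rw [h2, Finset.mul_sum, mul_comm, ← smul_eq_mul, ← Finset.sum_const]
    calc ∑ S ∈ (univ : Finset (Finset (Fin n))).filter fun S => S.card ≤ w, q ^ n
        ≤ ∑ S ∈ (univ : Finset (Finset (Fin n))).filter fun S => S.card ≤ w,
            q ^ w * q ^ (n - S.card) := by
          refine Finset.sum_le_sum fun S hS => ?_
          rw [mem_filter] at hS
          rw [← pow_add]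
          refine Nat.pow_le_pow_right hq ?_
          have : S.card ≤ n := by
            have := card_le_univ S
            rwa [Fintype.card_fin] at this
          omega
      _ ≤ ∑ S : Finset (Fin n), q ^ w * q ^ (n - S.card) :=
          Finset.sum_le_sum_of_subset (filter_subset _ _)
  have h3 := pow_add_one_le hq h
  have hqn : 0 < q ^ n := pow_pos hq n
  refine Nat.le_of_mul_le_mul_left ?_ hqn
  calc _ ≤ q ^ w * (q + 1) ^ n := h1
    _ ≤ q ^ w * (q ^ n * 4 ^ e) := Nat.mul_le_mul_left _ h3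
    _ = _ := by ring

lemma card_ball_entropy {n : ℕ} {δ : ℝ} (h0 : 0 ≤ δ) (h1 : δ ≤ 1 / 2) (D : ℕ)
    (hD : (D : ℝ) ≤ δ * n) :
    (((univ : Finset (Finset (Fin n))).filter fun S => S.card ≤ D).card : ℝ) ≤
      Real.exp (Real.binEntropy δ * n) := by
  rcases h0.eq_or_lt with rfl | hpos
  · have hD0 : D = 0 := by
      have : (D : ℝ) ≤ 0 := by simpa using hD
      exact_mod_cast le_antisymm this (Nat.cast_nonneg _)
    subst hD0
    have : ((univ : Finset (Finset (Fin n))).filter fun S => S.card ≤ 0) = {∅} := by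
      ext S; simp
    rw [this]
    simp
  · have h1' : 0 < 1 - δ := by linarith
    have hsum : ∑ S : Finset (Fin n), δ ^ S.card * (1 - δ) ^ (n - S.card) = 1 := by
      have := Finset.sum_pow_mul_eq_add_pow δ (1 - δ) (univ : Finset (Fin n))
      rw [powerset_univ, card_univ, Fintype.card_fin] at this
      rw [this]
      simp
    have hterm : ∀ S ∈ (univ : Finset (Finset (Fin n))).filter fun S => S.card ≤ D,
        Real.exp (-(Real.binEntropy δ * n)) ≤ δ ^ S.card * (1 - δ) ^ (n - S.card) := by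
      intro S hS
      rw [mem_filter] at hS
      have hSn : S.card ≤ n := by
        have := card_le_univ S
        rwa [Fintype.card_fin] at this
      have e1 : δ ^ S.card = Real.exp (S.card * Real.log δ) := by
        rw [mul_comm, Real.exp_mul, Real.exp_log hpos, Real.rpow_natCast]
      have e2 : (1 - δ) ^ (n - S.card) = Real.exp ((n - S.card : ℕ) * Real.log (1 - δ)) := by
        rw [mul_comm, Real.exp_mul, Real.exp_log h1', Real.rpow_natCast]
      rw [e1, e2, ← Real.exp_add]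
      apply Real.exp_le_exp.2
      rw [Real.binEntropy_eq_negMulLog_add_negMulLog_one_sub]
      unfold Real.negMulLog
      rw [Nat.cast_sub hSn]
      have hs : (S.card : ℝ) ≤ δ * n := by
        have : (S.card : ℝ) ≤ D := by exact_mod_cast hS.2
        linarith
      have hlog : Real.log δ ≤ Real.log (1 - δ) := Real.log_le_log hpos (by linarith)
      nlinarith [mul_nonneg (sub_nonneg.2 hs) (sub_nonneg.2 hlog)]
    have h2 : (((univ : Finset (Finset (Fin n))).filter fun S => S.card ≤ D).card : ℝ) *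
        Real.exp (-(Real.binEntropy δ * n)) ≤ 1 := by
      rw [← hsum, ← nsmul_eq_mul]
      refine (Finset.card_nsmul_le_sum _ _ _ hterm).trans ?_
      refine Finset.sum_le_sum_of_subset_of_nonneg (filter_subset _ _) fun S _ _ => ?_
      positivity
    rw [Real.exp_neg] at h2
    rwa [← div_eq_mul_inv, div_le_one (Real.exp_pos _)] at h2

lemma card_ball_add {n : ℕ} (a b : ℕ) :
    ((univ : Finset (Finset (Fin n))).filter fun S => S.card ≤ a + b).card ≤
      ((univ : Finset (Finset (Fin n))).filter fun S => S.card ≤ a).card *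
      ((univ : Finset (Finset (Fin n))).filter fun S => S.card ≤ b).card := by
  classical
  rw [← card_product]
  have : ((univ : Finset (Finset (Fin n))).filter fun S => S.card ≤ a + b) ⊆
      (((univ : Finset (Finset (Fin n))).filter fun S => S.card ≤ a) ×ˢ
      ((univ : Finset (Finset (Fin n))).filter fun S => S.card ≤ b)).image
        fun p => p.1 ∪ p.2 := by
    intro S hS
    rw [mem_filter] at hS
    rw [mem_image]
    obtain ⟨T, hTS, hT⟩ := Finset.exists_subset_card_eq (s := S) (n := min a S.card)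
      (min_le_right _ _)
    refine ⟨(T, S \ T), ?_, ?_⟩
    · rw [mem_product, mem_filter, mem_filter]
      refine ⟨⟨mem_univ _, ?_⟩, mem_univ _, ?_⟩
      · show T.card ≤ a
        rw [hT]; exact min_le_left _ _
      · show (S \ T).card ≤ b
        rw [card_sdiff_of_subset hTS, hT]
        omega
    · exact union_sdiff_of_subset hTS
  exact (card_le_card this).trans card_image_le

/-- assignments close to a fixed one on `A` -/
lemma card_close_le {n : ℕ} (w : ℕ) (A : Finset (Fin n)) (X0 : Fin n → Bool) :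
    (univ.filter fun Xs : Fin n → Bool =>
      (univ.filter fun v => v ∈ A ∧ X0 v ≠ Xs v).card ≤ w).card ≤
      ((univ : Finset (Finset (Fin n))).filter fun S => S.card ≤ w).card * 2 ^ Aᶜ.card := by
  classical
  have hsub : (univ.filter fun Xs : Fin n → Bool =>
      (univ.filter fun v => v ∈ A ∧ X0 v ≠ Xs v).card ≤ w) ⊆
      ((univ : Finset (Finset (Fin n))).filter fun S => S.card ≤ w).biUnion fun S =>
        univ.filter fun x : Fin n → Bool => ∀ i ∈ A, x i = if i ∈ S then !X0 i else X0 i := by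
    intro Xs hXs
    rw [mem_filter] at hXs
    rw [mem_biUnion]
    refine ⟨univ.filter fun v => v ∈ A ∧ X0 v ≠ Xs v, mem_filter.2 ⟨mem_univ _, hXs.2⟩, ?_⟩
    rw [mem_filter]
    refine ⟨mem_univ _, fun i hi => ?_⟩
    by_cases hne : X0 i = Xs i
    · rw [if_neg]
      · exact hne.symm
      · rw [mem_filter]
        exact fun hc => hc.2.2 hne
    · rw [if_pos (mem_filter.2 ⟨mem_univ _, hi, hne⟩)]
      revert hne
      cases X0 i <;> cases Xs i <;> simp
  refine (card_le_card hsub).trans (card_biUnion_le.trans ?_)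
  have h2 : ∀ S ∈ (univ : Finset (Finset (Fin n))).filter fun S => S.card ≤ w,
      (univ.filter fun x : Fin n → Bool => ∀ i ∈ A, x i = if i ∈ S then !X0 i else X0 i).card =
        2 ^ Aᶜ.card := fun S _ => card_agree A _
  rw [Finset.sum_congr rfl h2, Finset.sum_const, smul_eq_mul]

lemma ineq1 (ℓ : ℕ) : 2 * ((4 * ℓ + 24) * ((ℓ + 1) * 2 ^ ℓ)) + (2 * ℓ + 11) + 1 ≤
    2 ^ (2 * ℓ + 13) := by
  have h1 : (ℓ + 6) * (ℓ + 1) ≤ 2 ^ (ℓ + 4) := by
    induction ℓ with
    | zero => norm_num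
    | succ ℓ ih =>
      have h0 : 2 ^ (ℓ + 1 + 4) = 2 * 2 ^ (ℓ + 4) := by ring
      rcases Nat.eq_zero_or_pos ℓ with rfl | hpos
      · norm_num
      · rw [h0]
        nlinarith
  have h2 : 2 ^ (2 * ℓ + 13) = 512 * (2 ^ (ℓ + 4) * 2 ^ ℓ) := by
    rw [← pow_add, show (512 : ℕ) = 2 ^ 9 by norm_num, ← pow_add]
    congr 1; ring
  have h3 : (ℓ + 6) * (ℓ + 1) * 2 ^ ℓ ≤ 2 ^ (ℓ + 4) * 2 ^ ℓ := Nat.mul_le_mul_right _ h1
  have h4 : ℓ + 6 ≤ (ℓ + 6) * (ℓ + 1) * 2 ^ ℓ := by
    rw [mul_assoc]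
    exact Nat.le_mul_of_pos_right _ (by positivity)
  calc 2 * ((4 * ℓ + 24) * ((ℓ + 1) * 2 ^ ℓ)) + (2 * ℓ + 11) + 1
      = 8 * ((ℓ + 6) * (ℓ + 1) * 2 ^ ℓ) + 2 * (ℓ + 6) := by ring
    _ ≤ 8 * ((ℓ + 6) * (ℓ + 1) * 2 ^ ℓ) + 2 * ((ℓ + 6) * (ℓ + 1) * 2 ^ ℓ) := by omega
    _ ≤ 512 * (2 ^ (ℓ + 4) * 2 ^ ℓ) := by omega
    _ = _ := h2.symm

theorem core {k : ℕ} (ℓ : ℕ) (hℓ : 2 ≤ ℓ) (hk : 2 ^ (2 * ℓ + 7) * ((ℓ + 6) ^ 2 * (ℓ + 1)) ≤ k) :
    ∃ n0, ∀ n, n0 ≤ n → ∃ F : CNF n, IsKCNF k F ∧ Unsat F ∧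
      ∀ (N : ℕ) (π : Refutation F N) (δ : ℕ),
        (∀ (t : Fin N) (l : List (Fin n)), π.Path π.root t l →
          (univ.filter fun i => 2 ≤ l.count i).card ≤ δ) →
        ∃ E : ℕ, E * 2 ^ ℓ ≤ 8 * n ∧ 2 ^ n ≤ 2 ^ E *
          ((univ : Finset (Finset (Fin n))).filter fun S => S.card ≤ δ).card * N := by
  classical
  set d := 4 * ℓ + 24 with hd
  set m := d * ((ℓ + 1) * 2 ^ ℓ) with hm
  have h2l : 0 < 2 ^ ℓ := by positivity
  have hl1 : 0 < (ℓ + 1) * 2 ^ ℓ := by positivity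
  have hdm : d ≤ m := Nat.le_mul_of_pos_right _ hl1
  have hmpos : 0 < m := by omega
  refine ⟨m * (2 ^ ℓ * 4), fun n hn => ?_⟩
  have hex := exists_sys ℓ m n hℓ hdm (ineq1 ℓ) hn
  obtain ⟨B, hB⟩ : ∃ B, B = n / m := ⟨_, rfl⟩
  rw [← hB] at hex
  obtain ⟨M, P, hM, hE, hF, htouch, hblk, hroot, hrhs⟩ := hex
  have hBm : B * m ≤ n := by rw [hB]; exact Nat.div_mul_le_self n m
  set E1 := (n - B * m) + B / 2 ^ ℓ * m + B * d with hE1
  have h5 : (n - B * m) * 2 ^ ℓ ≤ n := by
    have : n - B * m ≤ m := by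
      have : n < B * m + m := by rw [hB]; exact Nat.lt_div_mul_add hmpos
      omega
    calc (n - B * m) * 2 ^ ℓ ≤ m * 2 ^ ℓ := Nat.mul_le_mul_right _ this
      _ ≤ m * (2 ^ ℓ * 4) := Nat.mul_le_mul_left _ (by omega)
      _ ≤ n := hn
  have h6 : B / 2 ^ ℓ * m * 2 ^ ℓ ≤ n := by
    calc B / 2 ^ ℓ * m * 2 ^ ℓ = (B / 2 ^ ℓ * 2 ^ ℓ) * m := by ring
      _ ≤ B * m := Nat.mul_le_mul_right _ (Nat.div_mul_le_self _ _)
      _ ≤ n := hBm
  have h7 : (ℓ + 1) * (B * d) * 2 ^ ℓ ≤ n := by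
    calc (ℓ + 1) * (B * d) * 2 ^ ℓ = B * m := by rw [hm]; ring
      _ ≤ n := hBm
  have h11 : ℓ * (B * d) * 2 ^ ℓ + (B * d) * 2 ^ ℓ ≤ n := by
    calc ℓ * (B * d) * 2 ^ ℓ + (B * d) * 2 ^ ℓ = (ℓ + 1) * (B * d) * 2 ^ ℓ := by ring
      _ ≤ n := h7
  -- the walks
  have hwalk := fun (N : ℕ) (π : Refutation P.cnf N) Xs => walk_main (π := π) hE hF (by omega) hM
    (fun i => by rw [hblk i]; exact hdm) hroot Xs
  refine ⟨P.cnf, cnf_kcnf P fun j => (htouch j).trans (le_trans (le_of_eq ?_) hk),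
    cnf_unsat P hrhs, fun N π δ hirr => ?_⟩
  · rw [hm, hd, pow_add, pow_add, two_mul, pow_add]
    ring
  set e := n / 2 ^ ℓ + 1 with he
  have hne : n ≤ 2 ^ ℓ * e := by
    have := Nat.lt_mul_div_succ n h2l
    rw [he]
    exact this.le
  set Q := ((univ : Finset (Finset (Fin n))).filter fun S => S.card ≤ δ).card with hQ
  choose u l X hpath hR hfal hwrong using hwalk N π
  have hfib : ∀ u0 : Fin N, (univ.filter fun Xs => u Xs = u0).card ≤
      Q * ((2 ^ ℓ) ^ (d * B) * 4 ^ e) * 2 ^ E1 := by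
    intro u0
    rcases (univ.filter fun Xs => u Xs = u0).eq_empty_or_nonempty with h | ⟨X1, hX1⟩
    · rw [h]; simp
    · rw [mem_filter] at hX1
      have hcompl : (vars (π.cl u0))ᶜ.card ≤ E1 := by
        rw [← hX1.2]
        exact card_compl_vars hblk (hR X1) hBm
      have hsub : (univ.filter fun Xs => u Xs = u0) ⊆ univ.filter fun Xs : Fin n → Bool =>
          (univ.filter fun v => v ∈ vars (π.cl u0) ∧ X X1 v ≠ Xs v).card ≤ δ + d * B := by
        intro Xs hXs
        rw [mem_filter] at hXs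
        rw [mem_filter]
        refine ⟨mem_univ _, ?_⟩
        have h1 : (univ.filter fun v => v ∈ vars (π.cl (u Xs)) ∧ X Xs v ≠ Xs v).card ≤
          (univ.filter fun v => 2 ≤ (l Xs).count v).card + d * B := hwrong Xs
        have h2 : (univ.filter fun v => 2 ≤ (l Xs).count v).card ≤ δ := hirr _ _ (hpath Xs)
        have h3 : (univ.filter fun v => v ∈ vars (π.cl u0) ∧ X X1 v ≠ Xs v) =
            univ.filter fun v => v ∈ vars (π.cl (u Xs)) ∧ X Xs v ≠ Xs v := by
          rw [hXs.2]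
          refine Finset.filter_congr fun v _ => and_congr_right fun hv => ?_
          have h4 : X X1 v = X Xs v := by
            rw [vars, mem_image] at hv
            obtain ⟨l', hl', rfl⟩ := hv
            have h5 := hfal X1
            have h6 := hfal Xs
            rw [hX1.2] at h5
            rw [hXs.2] at h6
            rw [h5 l' hl', h6 l' hl']
          rw [h4]
        rw [h3]
        omega
      refine (card_le_card hsub).trans ((card_close_le _ _ _).trans ?_)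
      refine Nat.mul_le_mul ?_ (Nat.pow_le_pow_right (by norm_num) hcompl)
      exact (card_ball_add δ (d * B)).trans
        (Nat.mul_le_mul_left _ (card_ball_le (d * B) h2l hne))
  have hcount : 2 ^ n ≤ Q * ((2 ^ ℓ) ^ (d * B) * 4 ^ e) * 2 ^ E1 * N := by
    have h1 : (univ : Finset (Fin n → Bool)).card = 2 ^ n := by
      rw [card_univ, Fintype.card_fun, Fintype.card_bool, Fintype.card_fin]
    have h2 : (univ : Finset (Fin N)).card = N := by rw [card_univ, Fintype.card_fin]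
    rw [← h1]
    conv_rhs => rw [← h2]
    exact Finset.card_le_mul_card_image_of_maps_to (f := u) (fun _ _ => mem_univ _) _
      (fun u0 _ => hfib u0)
  refine ⟨ℓ * (d * B) + 2 * e + E1, ?_, ?_⟩
  · have h9 : e * 2 ^ ℓ ≤ n + 2 ^ ℓ := by
      rw [he, add_mul, one_mul]
      exact Nat.add_le_add_right (Nat.div_mul_le_self _ _) _
    have h10 : 4 * 2 ^ ℓ ≤ n := by
      refine le_trans ?_ hn
      calc 4 * 2 ^ ℓ = 1 * (2 ^ ℓ * 4) := by ring
        _ ≤ m * (2 ^ ℓ * 4) := Nat.mul_le_mul_right _ hmpos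
    calc (ℓ * (d * B) + 2 * e + E1) * 2 ^ ℓ
        = (ℓ * (B * d) * 2 ^ ℓ + (B * d) * 2 ^ ℓ) + 2 * (e * 2 ^ ℓ) +
            (n - B * m) * 2 ^ ℓ + B / 2 ^ ℓ * m * 2 ^ ℓ := by rw [hE1]; ring
      _ ≤ n + 2 * (n + 2 ^ ℓ) + n + n := by omega
      _ ≤ 8 * n := by omega
  · calc 2 ^ n ≤ Q * ((2 ^ ℓ) ^ (d * B) * 4 ^ e) * 2 ^ E1 * N := hcount
      _ = 2 ^ (ℓ * (d * B) + 2 * e + E1) * Q * N := by
          rw [← pow_mul, show (4 : ℕ) = 2 ^ 2 by norm_num, ← pow_mul, pow_add, pow_add]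
          ring

lemma exists_level' (K : ℕ → ℕ) (hK : ∀ ℓ, ℓ < K ℓ) {k ℓ0 : ℕ} (h0 : K ℓ0 ≤ k) :
    ∃ ℓ, ℓ0 ≤ ℓ ∧ K ℓ ≤ k ∧ k < K (ℓ + 1) := by
  classical
  have hex : ∃ ℓ, ℓ0 ≤ ℓ ∧ k < K ℓ :=
    ⟨max ℓ0 k, le_max_left _ _, lt_of_le_of_lt (le_max_right _ _) (hK _)⟩
  obtain ⟨hm1, hm2⟩ := Nat.find_spec hex
  set m := Nat.find hex with hm
  have hne : m ≠ ℓ0 := by
    intro h
    rw [h] at hm2
    omega
  obtain ⟨ℓ, hℓ⟩ : ∃ ℓ, m = ℓ + 1 := ⟨m - 1, by omega⟩
  refine ⟨ℓ, by omega, ?_, ?_⟩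
  · by_contra hcon
    have := Nat.find_min hex (m := ℓ) (by omega)
    exact this ⟨by omega, by omega⟩
  · rw [← hℓ]; exact hm2

lemma trivial_range {k : ℕ} (hk2 : 2 ≤ k) (hk : k < 393216) :
    1 ≤ 64 * √((Real.logb 2 k) ^ 3 / k) := by
  have hkR : (2 : ℝ) ≤ k := by exact_mod_cast hk2
  have hkpos : (0 : ℝ) < k := by linarith
  have hlog1 : 1 ≤ Real.logb 2 k := by
    rw [Real.le_logb_iff_rpow_le (by norm_num) hkpos]
    simpa using hkR
  have key : (1 / 64 : ℝ) ≤ √((Real.logb 2 k) ^ 3 / k) := by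
    apply Real.le_sqrt_of_sq_le
    rw [le_div_iff₀ hkpos]
    rcases le_or_gt k 4096 with h | h
    · have h1 : (k : ℝ) ≤ 4096 := by exact_mod_cast h
      have h2 : (1 : ℝ) ≤ (Real.logb 2 k) ^ 3 := one_le_pow₀ hlog1
      linarith
    · have h1 : (k : ℝ) ≤ 393216 := by exact_mod_cast hk.le
      have h12 : 12 ≤ Real.logb 2 k := by
        rw [Real.le_logb_iff_rpow_le (by norm_num) hkpos]
        have : (4096 : ℝ) ≤ k := by exact_mod_cast h.le
        norm_num at this ⊢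
        exact this
      have h2 : (12 : ℝ) ^ 3 ≤ (Real.logb 2 k) ^ 3 := pow_le_pow_left₀ (by norm_num) h12 3
      norm_num at h2
      linarith
  linarith

lemma level_bound {k ℓ : ℕ} (hℓ : 2 ≤ ℓ)
    (h1 : 2 ^ (2 * ℓ + 7) * ((ℓ + 6) ^ 2 * (ℓ + 1)) ≤ k)
    (h2 : k < 2 ^ (2 * ℓ + 9) * ((ℓ + 7) ^ 2 * (ℓ + 2))) :
    8 / 2 ^ ℓ ≤ 64 * √((Real.logb 2 k) ^ 3 / k) := by
  have hkpos : 0 < k :=
    lt_of_lt_of_le (Nat.mul_pos (Nat.pow_pos (by norm_num))
      (Nat.mul_pos (Nat.pow_pos (by omega)) (by omega))) h1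
  have hkR : (0 : ℝ) < k := by exact_mod_cast hkpos
  have hℓR : (2 : ℝ) ≤ ℓ := by exact_mod_cast hℓ
  have h2l : (0 : ℝ) < 2 ^ ℓ := by positivity
  set L := Real.logb 2 k with hL
  have hlog : 2 * ((ℓ : ℝ) + 7) ≤ L := by
    rw [hL, Real.le_logb_iff_rpow_le (by norm_num) hkR]
    have h4 : 2 ^ (2 * ℓ + 14) ≤ k := by
      refine le_trans ?_ h1
      have : 2 ^ (2 * ℓ + 14) = 2 ^ (2 * ℓ + 7) * (8 ^ 2 * 2) := by
        rw [show (8 : ℕ) ^ 2 * 2 = 2 ^ 7 by norm_num, ← pow_add]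
      rw [this]
      refine Nat.mul_le_mul_left _ (Nat.mul_le_mul (Nat.pow_le_pow_left (by omega) _) (by omega))
    have h5 : ((2 : ℝ) ^ (2 * ℓ + 14 : ℕ)) ≤ k := by exact_mod_cast h4
    have h6 : (2 * ((ℓ : ℝ) + 7)) = ((2 * ℓ + 14 : ℕ) : ℝ) := by push_cast; ring
    rw [h6, Real.rpow_natCast]
    exact h5
  have hkle : (k : ℝ) ≤ 64 * (2 ^ ℓ) ^ 2 * L ^ 3 := by
    have h3 : (k : ℝ) ≤ 2 ^ (2 * ℓ + 9) * (((ℓ : ℝ) + 7) ^ 2 * (ℓ + 2)) := by
      exact_mod_cast h2.le
    have h4 : (2 : ℝ) ^ (2 * ℓ + 9) = 512 * (2 ^ ℓ) ^ 2 := by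
      rw [pow_add, ← pow_mul, mul_comm ℓ 2]
      ring
    rw [h4] at h3
    have h5 : ((ℓ : ℝ) + 7) ^ 2 * (ℓ + 2) ≤ (L / 2) ^ 3 := by
      calc ((ℓ : ℝ) + 7) ^ 2 * (ℓ + 2) ≤ (L / 2) ^ 2 * (L / 2) := by
            gcongr <;> linarith
        _ = (L / 2) ^ 3 := by ring
    calc (k : ℝ) ≤ 512 * (2 ^ ℓ) ^ 2 * (((ℓ : ℝ) + 7) ^ 2 * (ℓ + 2)) := h3
      _ ≤ 512 * (2 ^ ℓ) ^ 2 * (L / 2) ^ 3 := mul_le_mul_of_nonneg_left h5 (by positivity)
      _ = _ := by ring
  have key : 1 / (8 * 2 ^ ℓ) ≤ √(L ^ 3 / k) := by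
    apply Real.le_sqrt_of_sq_le
    rw [le_div_iff₀ hkR, div_pow, one_pow, one_div, inv_mul_le_iff₀ (by positivity)]
    calc (k : ℝ) ≤ 64 * (2 ^ ℓ) ^ 2 * L ^ 3 := hkle
      _ = _ := by ring
  calc (8 : ℝ) / 2 ^ ℓ = 64 * (1 / (8 * 2 ^ ℓ)) := by
        field_simp
        norm_num
    _ ≤ _ := by linarith

/-- For every `k ≥ 2` and all large `n` there is an unsatisfiable `k`-CNF formula on `n` variables
such that, with `ε = 64 √((log₂ k)³ / k)`, for every `δ ≤ 1/2`: every resolution refutation in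
which on each path from the root at most `δ n` variables are resolved on more than once has at
least `2 ^ ((1 - H(δ) - ε) n)` clauses, where `H` is the binary entropy. -/
theorem result : ∀ k : ℕ, 2 ≤ k → ∃ n0 : ℕ, ∀ n, n0 ≤ n → ∃ F : CNF n, IsKCNF k F ∧ Unsat F ∧
    ∀ δ : ℝ, 0 ≤ δ → δ ≤ 1 / 2 → ∀ (N : ℕ) (π : Refutation F N), AlmostRegular π (δ * n) →
      (2 : ℝ) ^ ((1 - Real.binEntropy δ / Real.log 2 - 64 * √((Real.logb 2 k) ^ 3 / k)) * n) ≤
        N := by
  intro k hk2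
  rcases lt_or_ge k 393216 with hk | hk
  · refine ⟨1, fun n hn => ?_⟩
    obtain ⟨n', rfl⟩ : ∃ n', n = n' + 1 := ⟨n - 1, by omega⟩
    have htr := trivial_range hk2 hk
    refine ⟨{{(0, true)}, {(0, false)}}, ?_, ?_, ?_⟩
    · intro C hC
      rw [mem_insert, mem_singleton] at hC
      rcases hC with rfl | rfl <;> simp <;> omega
    · intro x
      cases hx : x 0
      · exact ⟨{(0, true)}, by simp, by simp [Satisfies, hx]⟩
      · exact ⟨{(0, false)}, by simp, by simp [Satisfies, hx]⟩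
    · intro δ hδ0 hδ1 N π _
      have hN : 1 ≤ N := by
        have := π.root.2
        omega
      have h1 : (1 : ℝ) ≤ N := by exact_mod_cast hN
      refine le_trans ?_ h1
      apply Real.rpow_le_one_of_one_le_of_nonpos (by norm_num)
      refine mul_nonpos_of_nonpos_of_nonneg ?_ (Nat.cast_nonneg _)
      have h2 : 0 ≤ Real.binEntropy δ / Real.log 2 :=
        div_nonneg (Real.binEntropy_nonneg hδ0 (by linarith)) (Real.log_nonneg (by norm_num))
      linarith
  · obtain ⟨ℓ, hℓ, hℓ1, hℓ2⟩ := exists_level'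
      (fun ℓ => 2 ^ (2 * ℓ + 7) * ((ℓ + 6) ^ 2 * (ℓ + 1)))
      (fun ℓ => by
        calc ℓ < 2 ^ ℓ := Nat.lt_two_pow_self
          _ ≤ 2 ^ (2 * ℓ + 7) := Nat.pow_le_pow_right (by norm_num) (by omega)
          _ ≤ _ := Nat.le_mul_of_pos_right _ (Nat.mul_pos (Nat.pow_pos (by omega)) (by omega)))
      (k := k) (ℓ0 := 2) (by
        refine le_trans (le_of_eq ?_) hk
        norm_num)
    have h1 : 2 * (ℓ + 1) + 7 = 2 * ℓ + 9 := by ring
    have h2 : ℓ + 1 + 6 = ℓ + 7 := by ring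
    have h2' : ℓ + 1 + 1 = ℓ + 2 := by ring
    simp only [h1, h2, h2'] at hℓ2
    obtain ⟨n0, hn0⟩ := core ℓ hℓ hℓ1
    have hlb := level_bound hℓ hℓ1 hℓ2
    refine ⟨n0, fun n hn => ?_⟩
    obtain ⟨F, hFk, hFu, hF⟩ := hn0 n hn
    refine ⟨F, hFk, hFu, fun δ hδ0 hδ1 N π hirr => ?_⟩
    · set D := ⌊δ * n⌋₊ with hD
      have hDle : (D : ℝ) ≤ δ * n := Nat.floor_le (mul_nonneg hδ0 (Nat.cast_nonneg _))
      obtain ⟨E, hE1, hE2⟩ := hF N π D (fun t l hl => Nat.le_floor (hirr t l hl))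
      have hER : (E : ℝ) ≤ 8 / 2 ^ ℓ * n := by
        rw [div_mul_eq_mul_div, le_div_iff₀ (by positivity)]
        exact_mod_cast hE1
      have hE3 : (E : ℝ) ≤ 64 * √((Real.logb 2 k) ^ 3 / k) * n :=
        hER.trans (mul_le_mul_of_nonneg_right hlb (Nat.cast_nonneg _))
      have hball := card_ball_entropy hδ0 hδ1 D hDle
      have hlog2 : 0 < Real.log 2 := Real.log_pos (by norm_num)
      have hexp : Real.exp (Real.binEntropy δ * n) =
          (2 : ℝ) ^ (Real.binEntropy δ / Real.log 2 * n) := by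
        rw [Real.rpow_def_of_pos (by norm_num)]
        congr 1
        field_simp
      rw [hexp] at hball
      have h3 : (2 : ℝ) ^ (n : ℝ) ≤
          2 ^ (E : ℝ) * (2 : ℝ) ^ (Real.binEntropy δ / Real.log 2 * n) * N := by
        rw [Real.rpow_natCast, Real.rpow_natCast]
        have h4 : (2 : ℝ) ^ n ≤ 2 ^ E *
            (((univ : Finset (Finset (Fin n))).filter fun S => S.card ≤ D).card : ℝ) * N := by
          exact_mod_cast hE2
        refine h4.trans ?_
        gcongr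
      have h4 : (2 : ℝ) ^ ((n : ℝ) - (E + Real.binEntropy δ / Real.log 2 * n)) ≤ N := by
        rw [Real.rpow_sub (by norm_num), div_le_iff₀ (by positivity),
          Real.rpow_add (by norm_num), mul_comm]
        exact h3
      refine le_trans ?_ h4
      apply Real.rpow_le_rpow_of_exponent_le (by norm_num)
      have : (1 - Real.binEntropy δ / Real.log 2 - 64 * √((Real.logb 2 k) ^ 3 / k)) * (n : ℝ) =
          n - Real.binEntropy δ / Real.log 2 * n - 64 * √((Real.logb 2 k) ^ 3 / k) * n := by ring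
      rw [this]
      linarith

end Pool.Agent.Results.MP_c62aed_lc.AlmostRegularSETH
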