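import Pool.Agent.H73.Xor.Final

/-!
# Fractional subcube partitions certifying unsatisfiability need `2 ^ ((1 - o_k(1)) n)` members

A CNF formula can be refuted by a partition of the Boolean cube into subcubes each of which
falsifies a clause (the Hitting proof system; the leaves of a decision tree, that is, of a
tree-like resolution refutation, form such a partition).  We allow in addition nonnegative
weights: the weighted indicator functions of the subcubes must add up to one at every point.
-/

open Finset Pool.Agent.H73.Xor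

namespace Pool.Agent.H73.Old.HittingSETH

/-- The assignment `x` lies in the subcube of the restriction `R`: it agrees with every value
that `R` sets. -/
def Extends {n : ℕ} (x : Fin n → Bool) (R : Fin n → Option Bool) : Prop :=
  ∀ i b, R i = some b → x i = b

instance {n : ℕ} (x : Fin n → Bool) (R : Fin n → Option Bool) : Decidable (Extends x R) := by
  unfold Extends; infer_instance

/-- A fractional subcube partition refuting the CNF formula `F`, with `N` members: restrictions
`R t` (subcubes) with nonnegative weights `w t` such that at every assignment the weights of the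
subcubes containing it add up to one, and such that inside every subcube the formula `F` is
refuted by at most `n / k` of its clauses: there are clauses `F' ⊆ F` with `F'.card * k ≤ n` such
that every assignment in the subcube violates one of them. -/
structure FractionalPartition {n : ℕ} (F : CNF n) (k N : ℕ) where
  R : Fin N → Fin n → Option Bool
  w : Fin N → ℝ
  nonneg : ∀ t, 0 ≤ w t
  total : ∀ x : Fin n → Bool, ∑ t, (if Extends x (R t) then w t else 0) = 1
  closed : ∀ t, ∃ F' ⊆ F, F'.card * k ≤ n ∧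
    ∀ x : Fin n → Bool, Extends x (R t) → ∃ C ∈ F', ¬ Satisfies x C

section core

variable {n M : ℕ}

lemma w_le_one {F : CNF n} {k N : ℕ} (P : FractionalPartition F k N) (t : Fin N) : P.w t ≤ 1 := by
  set x : Fin n → Bool := fun i => (P.R t i).getD false with hx
  have hext : Extends x (P.R t) := by
    intro i e he
    simp [hx, he]
  rw [← P.total x]
  have := Finset.single_le_sum (f := fun t => if Extends x (P.R t) then P.w t else 0)
    (s := univ) (fun t _ => by split_ifs; exacts [P.nonneg t, le_rfl]) (mem_univ t)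
  simp only [if_pos hext] at this
  exact this

lemma agree_iff (R : Fin n → Option Bool) (z : Fin n → ZMod 2) :
    Agree (univ.filter fun i => (R i).isSome = true)
      (fun i => if R i = some true then 1 else 0) z ↔ Extends (fz z) R := by
  unfold Agree Extends
  constructor
  · intro h i b hb
    have h1 := h i (by simp [hb])
    simp only [hb] at h1
    unfold fz
    rw [h1]
    cases b <;> simp
  · intro h i hi
    simp only [mem_filter, mem_univ, true_and] at hi
    obtain ⟨b, hb⟩ := Option.isSome_iff_exists.1 hi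
    have h2 := h i b hb
    simp only [hb]
    unfold fz at h2
    rcases z2_cases (z i) with h0 | h1
    · rw [h0] at h2 ⊢
      simp at h2
      simp [← h2]
    · rw [h1] at h2 ⊢
      simp at h2
      simp [← h2]

theorem core {k : ℕ} (hk2 : 2 ≤ k) (ℓ : ℕ) (hk : 2 ^ (2 * ℓ + 16) * (ℓ + 6) ^ 2 ≤ k) :
    ∃ n0, ∀ n, n0 ≤ n →
      ∃ F : CNF n, IsKCNF k F ∧ Unsat F ∧ ∀ W : ℝ,
        (∃ (N : ℕ) (P : FractionalPartition F k N), ∑ t, P.w t = W) →
        ∃ m : ℕ, m * 2 ^ ℓ ≤ 3 * n ∧ (2 : ℝ) ^ n ≤ 2 ^ m * W := by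
  classical
  obtain ⟨n0, hn0⟩ := exists_system ℓ k hk
  refine ⟨n0, fun n hn => ?_⟩
  obtain ⟨M, c, K, L, D, r, hM, hLc, hq, hD, hDk, hP5, hsize, a, hgood⟩ := hn0 n hn
  have : Nonempty (Fin M) := ⟨⟨0, hM⟩⟩
  obtain ⟨j0, s, hs, hs0, hsmax⟩ := exists_max_row a
  set b : Fin M → ZMod 2 := Pi.single j0 1 with hb
  refine ⟨sysCNF a b, sysCNF_kcnf hgood.rows, sysCNF_unsat hgood.even ?_, ?_⟩
  · rw [hb, Finset.sum_pi_single']
    simp
  rintro _ ⟨N, P, rfl⟩
  refine ⟨M + 2 * r + 1, hsize, ?_⟩
  set T : Fin N → Finset (Fin n) := fun t => univ.filter fun i => (P.R t i).isSome = true with hT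
  set ρ : Fin N → Fin n → ZMod 2 := fun t i => if P.R t i = some true then 1 else 0 with hρ
  have hw : ∀ z : Fin n → ZMod 2, ∑ t, (if Agree (T t) (ρ t) z then P.w t else 0) = 1 := by
    intro z
    rw [← P.total (fz z)]
    refine Finset.sum_congr rfl fun t _ => ?_
    have := agree_iff (P.R t) z
    by_cases h : Extends (fz z) (P.R t)
    · rw [if_pos h, if_pos (this.2 h)]
    · rw [if_neg h, if_neg (fun h' => h (this.1 h'))]
  have hS : ∀ t, (S a b (T t) (ρ t)).card ≤ D := by
    intro t
    obtain ⟨F', hF', hcard, hfal⟩ := P.closed t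
    choose! g hg using fun C (hC : C ∈ F') => (sysCNF_row (hF' hC))
    have hle : F'.card ≤ D := by
      have : F'.card * k ≤ D * k := hcard.trans hDk
      exact Nat.le_of_mul_le_mul_right this (by omega)
    refine le_trans (le_trans (card_le_card (t := F'.image g) ?_) card_image_le) hle
    intro j' hj'
    rw [mem_S, mem_V] at hj'
    obtain ⟨z, hz, hzj⟩ := hj'
    have hext : Extends (fz z) (P.R t) := (agree_iff (P.R t) z).1 hz
    obtain ⟨C, hC, hns⟩ := hfal _ hext
    have h1 := (hg C hC).2 _ hns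
    rw [tz_fz, hzj, Pi.add_apply] at h1
    rw [mem_image]
    refine ⟨C, hC, ?_⟩
    by_contra hne
    apply h1
    rw [Pi.single_eq_of_ne hne, add_zero]
  set B : Finset (Fin N) := univ.filter fun t => r ≤ (T t)ᶜ.card with hB
  have hmass := mass_outside hgood hs0 hsmax (by rwa [Fintype.card_fin]) hLc hq T ρ P.w P.nonneg
    hw B (fun t ht => ⟨(mem_filter.1 ht).2, hS t⟩)
  have hS2 : ∀ t, (S a b (T t) (ρ t)).card ≤ s := by
    intro t
    rw [← hs0]
    refine card_le_card fun j hj => ?_
    rw [mem_S, mem_V] at hj ⊢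
    obtain ⟨z, -, hz⟩ := hj
    exact ⟨z, by simp [Agree], hz⟩
  have hbound : ∑ t ∈ Bᶜ, P.w t * (nu a (T t) : ℝ) * ((S a b (T t) (ρ t)).card : ℝ) ≤
      2 ^ r * (∑ t, P.w t) * s := by
    calc ∑ t ∈ Bᶜ, P.w t * (nu a (T t) : ℝ) * ((S a b (T t) (ρ t)).card : ℝ)
        ≤ ∑ t ∈ Bᶜ, (2 : ℝ) ^ r * P.w t * s := by
          refine Finset.sum_le_sum fun t ht => ?_
          have hlt : (T t)ᶜ.card ≤ r := by
            rw [hB, mem_compl, mem_filter] at ht
            push Not at ht
            exact (ht (mem_univ _)).le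
          have hnu : (nu a (T t) : ℝ) ≤ 2 ^ r := by
            have := (nu_le a (T t)).trans (Nat.pow_le_pow_right (by norm_num) hlt)
            exact_mod_cast this
          have hS' : ((S a b (T t) (ρ t)).card : ℝ) ≤ s := by exact_mod_cast hS2 t
          have h0 := P.nonneg t
          calc P.w t * (nu a (T t) : ℝ) * ((S a b (T t) (ρ t)).card : ℝ)
              ≤ P.w t * 2 ^ r * s := by gcongr
            _ = 2 ^ r * P.w t * s := by ring
      _ ≤ ∑ t, (2 : ℝ) ^ r * P.w t * s :=
          Finset.sum_le_sum_of_subset_of_nonneg (subset_univ _) fun t _ _ =>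
            mul_nonneg (mul_nonneg (by positivity) (P.nonneg t)) (Nat.cast_nonneg _)
      _ = 2 ^ r * (∑ t, P.w t) * s := by rw [Finset.mul_sum, Finset.sum_mul]
  have hs1 : (0 : ℝ) < s := by exact_mod_cast hs
  have hW0 : 0 ≤ ∑ t, P.w t := Finset.sum_nonneg fun t _ => P.nonneg t
  have h5 : (nu a ∅ : ℝ) ≤ 2 ^ (r + 1) * ∑ t, P.w t := by
    refine le_of_mul_le_mul_right ?_ hs1
    calc (nu a ∅ : ℝ) * s ≤ 2 * (2 ^ r * (∑ t, P.w t) * s) := hmass.trans (by gcongr)
      _ = _ := by rw [pow_succ]; ring
  have h7 := two_pow_le_nu a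
  rw [Fintype.card_fin, Fintype.card_fin] at h7
  have h8 : (2 : ℝ) ^ n ≤ 2 ^ M * nu a ∅ := by exact_mod_cast h7
  calc (2 : ℝ) ^ n ≤ 2 ^ M * nu a ∅ := h8
    _ ≤ 2 ^ M * (2 ^ (r + 1) * ∑ t, P.w t) := by gcongr
    _ = 2 ^ (M + r + 1) * ∑ t, P.w t := by rw [pow_add, pow_add, pow_add]; ring
    _ ≤ 2 ^ (M + 2 * r + 1) * ∑ t, P.w t := by
        refine mul_le_mul_of_nonneg_right ?_ hW0
        exact pow_le_pow_right₀ (by norm_num) (by omega)

end core

/-- For every `k ≥ 2` and all large `n` there is an unsatisfiable `k`-CNF formula on `n` variables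
all of whose refutations by fractional subcube partitions (with local refutations of at most
`n / k` clauses inside the subcubes) have total weight, hence also number of members, at least
`2 ^ ((1 - 768 log₂ k / √k) n)`. -/
theorem result : ∀ k : ℕ, 2 ≤ k → ∃ n0 : ℕ, ∀ n, n0 ≤ n → ∃ F : CNF n, IsKCNF k F ∧ Unsat F ∧
    ∀ (N : ℕ) (P : FractionalPartition F k N),
      (2 : ℝ) ^ ((1 - 768 * Real.logb 2 k / √(k : ℝ)) * n) ≤ ∑ t, P.w t ∧ ∑ t, P.w t ≤ N := by
  intro k hk
  obtain ⟨n0, hn0⟩ := final_choice hk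
    (fun _ F W => ∃ (N : ℕ) (P : FractionalPartition F k N), ∑ t, P.w t = W) (by
      rintro n F _ ⟨N, P, rfl⟩
      rw [← P.total (fun _ => false)]
      refine Finset.sum_le_sum fun t _ => ?_
      split_ifs
      · exact le_rfl
      · exact P.nonneg t) (core hk)
  refine ⟨n0, fun n hn => ?_⟩
  obtain ⟨F, hF1, hF2, hF3⟩ := hn0 n hn
  refine ⟨F, hF1, hF2, fun N P => ⟨hF3 _ ⟨N, P, rfl⟩, ?_⟩⟩
  calc ∑ t, P.w t ≤ ∑ t : Fin N, (1 : ℝ) := Finset.sum_le_sum fun t _ => w_le_one P t
    _ = N := by simp

end Pool.Agent.H73.Old.HittingSETH
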