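import Pool.Agent.H73.Xor.Res

/-!
# Regular resolution needs `2 ^ ((1 - O(log k / √k)) n)` clauses on some `k`-CNF formulas
-/

open Finset Pool.Agent.H73.Xor

namespace Pool.Agent.H73.Old.RegularSETH

/-- The refutation is regular: no variable is resolved on more than once along a path from the
root. -/
def Regular {n N : ℕ} {F : CNF n} (π : Refutation F N) : Prop :=
  ∀ (t : Fin N) (l : List (Fin n)), π.Path π.root t l → l.Nodup

lemma card_agree {n : ℕ} (T : Finset (Fin n)) (y : Fin n → Bool) :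
    (univ.filter fun x : Fin n → Bool => ∀ i ∈ T, x i = y i).card = 2 ^ Tᶜ.card := by
  have : (univ.filter fun x : Fin n → Bool => ∀ i ∈ T, x i = y i) =
      Fintype.piFinset fun i => if i ∈ T then {y i} else univ := by
    ext x
    simp only [mem_filter, mem_univ, true_and, Fintype.mem_piFinset]
    refine forall_congr' fun i => ?_
    by_cases h : i ∈ T <;> simp [h]
  rw [this, Fintype.card_piFinset]
  have h2 : ∀ i : Fin n, (if i ∈ T then ({y i} : Finset Bool) else univ).card =
      if i ∈ T then 1 else 2 := by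
    intro i; split_ifs <;> simp
  rw [Finset.prod_congr rfl (fun i _ => h2 i), Finset.prod_ite, Finset.prod_const_one, one_mul,
    Finset.prod_const]
  congr 2
  ext i; simp

instance {n : ℕ} (x : Fin n → Bool) (C : Clause n) : Decidable (Fal x C) := by
  unfold Fal; infer_instance

lemma card_fal_le {n : ℕ} (C : Clause n) :
    (univ.filter fun x : Fin n → Bool => Fal x C).card ≤ 2 ^ (vars C)ᶜ.card := by
  classical
  rcases (univ.filter fun x : Fin n → Bool => Fal x C).eq_empty_or_nonempty with h | ⟨y, hy⟩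
  · rw [h]; simp
  · rw [← card_agree (vars C) y]
    refine card_le_card fun x hx => ?_
    rw [mem_filter] at hx hy ⊢
    refine ⟨mem_univ _, fun i hi => ?_⟩
    rw [vars, mem_image] at hi
    obtain ⟨l, hl, rfl⟩ := hi
    rw [hx.2 l hl, hy.2 l hl]

lemma agree_tz_iff {n : ℕ} (T : Finset (Fin n)) (x : Fin n → Bool) (z : Fin n → ZMod 2) :
    Agree T (tz x) z ↔ ∀ i ∈ T, (fz z) i = x i := by
  unfold Agree
  refine forall_congr' fun i => imp_congr_right fun _ => ?_
  unfold tz fz
  rcases z2_cases (z i) with h | h <;> cases x i <;> simp [h]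

theorem core {k : ℕ} (ℓ : ℕ) (hk : 2 ^ (2 * ℓ + 16) * (ℓ + 6) ^ 2 ≤ k) :
    ∃ n0, ∀ n, n0 ≤ n →
      ∃ F : CNF n, IsKCNF k F ∧ Unsat F ∧ ∀ W : ℝ,
        (∃ (N : ℕ) (π : Refutation F N), Regular π ∧ (N : ℝ) = W) →
        ∃ m : ℕ, m * 2 ^ ℓ ≤ 3 * n ∧ (2 : ℝ) ^ n ≤ 2 ^ m * W := by
  classical
  obtain ⟨n0, hn0⟩ := exists_system ℓ k hk
  refine ⟨n0, fun n hn => ?_⟩
  obtain ⟨M, c, K, L, D, r, hM, hLc, hq, hD, hDk, hP5, hsize, a, hgood⟩ := hn0 n hn
  have : Nonempty (Fin M) := ⟨⟨0, hM⟩⟩
  obtain ⟨j0, s, hs, hs0, hsmax⟩ := exists_max_row a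
  set b : Fin M → ZMod 2 := Pi.single j0 1 with hb
  refine ⟨sysCNF a b, sysCNF_kcnf hgood.rows, sysCNF_unsat hgood.even ?_, ?_⟩
  · rw [hb, Finset.sum_pi_single']
    simp
  rintro _ ⟨N, π, hreg, rfl⟩
  refine ⟨M + 2 * r + 1, hsize, ?_⟩
  have hN1 : 1 ≤ N := by
    have := π.root.2
    omega
  rcases lt_or_ge n r with hrn | hrn
  · have h1 : (1 : ℝ) ≤ N := by exact_mod_cast hN1
    calc (2 : ℝ) ^ n ≤ 2 ^ (M + 2 * r + 1) := pow_le_pow_right₀ (by norm_num) (by omega)
      _ = 2 ^ (M + 2 * r + 1) * 1 := by rw [mul_one]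
      _ ≤ 2 ^ (M + 2 * r + 1) * N := by gcongr
  set t : (Fin n → Bool) → Fin N := fun x => (walk π r x N).1 with ht
  set T : (Fin n → Bool) → Finset (Fin n) := fun x => (walk π r x N).2 with hT
  set w : (Fin n → Bool) → ℝ := fun x => (1 / 2) ^ (T x)ᶜ.card with hw
  have hinv := fun x => walk_invariants π r hrn x N
  have hcongr : ∀ x y, (∀ i ∈ T x, y i = x i) → walk π r y N = walk π r x N :=
    fun x y h => walk_congr π r x y N h
  have hcompl : ∀ x, (T x)ᶜ.card = n - (T x).card := by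
    intro x
    rw [card_compl, Fintype.card_fin]
  have hw1 : ∀ z : Fin n → ZMod 2, ∑ x, (if Agree (T x) (tz x) z then w x else 0) = 1 := by
    intro z
    have h1 : ∀ x, (if Agree (T x) (tz x) z then w x else 0) =
        if ∀ i ∈ T (fz z), x i = fz z i then w (fz z) else 0 := by
      intro x
      by_cases h : Agree (T x) (tz x) z
      · have h2 := (agree_tz_iff _ _ _).1 h
        have h3 := hcongr x (fz z) h2
        have h4 : T (fz z) = T x := congrArg Prod.snd h3
        rw [if_pos h, if_pos]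
        · simp only [hw, h4]
        · rw [h4]
          exact fun i hi => (h2 i hi).symm
      · rw [if_neg h, if_neg]
        intro h2
        apply h
        have h3 := hcongr (fz z) x h2
        have h4 : T x = T (fz z) := congrArg Prod.snd h3
        rw [agree_tz_iff, h4]
        exact fun i hi => (h2 i hi).symm
    rw [Finset.sum_congr rfl (fun x _ => h1 x), ← Finset.sum_filter, Finset.sum_const,
      card_agree, nsmul_eq_mul]
    simp only [hw]
    push_cast
    rw [← mul_pow]
    norm_num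
  have hSsub : ∀ x j, j ∈ S a b (T x) (tz x) → ∃ y : Fin n → Bool, walk π r y N = walk π r x N ∧
      ∀ C ∈ sysCNF a b, Fal y C → ∀ j', (∀ z : Fin n → Bool, ¬ Satisfies z C →
        app a (tz z) j' ≠ b j') → j' = j := by
    intro x j hj
    rw [mem_S, mem_V] at hj
    obtain ⟨z, hz, hzj⟩ := hj
    refine ⟨fz z, hcongr x (fz z) ((agree_tz_iff _ _ _).1 hz), ?_⟩
    intro C _ hfal j' hj'
    have h1 := hj' _ (fal_iff.1 hfal)
    rw [tz_fz, hzj, Pi.add_apply] at h1
    by_contra hne
    apply h1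
    rw [Pi.single_eq_of_ne hne, add_zero]
  set B : Finset (Fin n → Bool) := univ.filter fun x =>
    ¬ (n ≤ (T x).card + r ∧ (T x \ vars (π.cl (t x))).card < r) with hB
  have hBad : ∀ x ∈ B, r ≤ (T x)ᶜ.card ∧ (S a b (T x) (tz x)).card ≤ D := by
    intro x hx
    obtain ⟨⟨l, hl, hlT⟩, hfalx, hvarsx, hcard⟩ := hinv x
    have hcard' : (T x).card + r ≤ n := hcard
    refine ⟨by rw [hcompl]; omega, ?_⟩
    rw [hB, mem_filter, not_and_or] at hx
    rcases hx.2 with hx1 | hx1
    · -- a leaf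
      have hnone := (walk_end π r x).resolve_left hx1
      obtain ⟨C, hC, hCcl⟩ := π.leaf _ hnone
      obtain ⟨j, -, hj⟩ := sysCNF_row hC
      refine le_trans ?_ hD
      rw [Finset.card_le_one_iff_subset_singleton]
      refine ⟨j, fun j' hj' => ?_⟩
      obtain ⟨y, hy, hyC⟩ := hSsub x j' hj'
      have hfaly : Fal y (π.cl (walk π r x N).1) := by
        have := (hinv y).2.1
        rwa [hy] at this
      rw [mem_singleton]
      exact (hyC C hC (fun l hl => hfaly l (hCcl hl)) j hj).symm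
    · -- many variables forgotten
      rw [not_lt] at hx1
      by_contra hcon
      rw [not_le] at hcon
      obtain ⟨i, hi, j, hj, hij⟩ := hgood.hit _ hx1 _ hcon
      obtain ⟨y, hy, hyC⟩ := hSsub x j hj
      have hfaly : Fal y (π.cl (walk π r x N).1) := by
        have := (hinv y).2.1
        rwa [hy] at this
      obtain ⟨t', l', hpath, hnone, hfal', hvars'⟩ := descend π y N _
        ((walk π r x N).1.2.le) hfaly
      obtain ⟨C, hC, hCcl⟩ := π.leaf _ hnone
      obtain ⟨j', hj'vars, hj'⟩ := sysCNF_row hC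
      have hjj : j' = j := hyC C hC (fun l hl => hfal' l (hCcl hl)) j' hj'
      subst hjj
      obtain ⟨e, he⟩ := hj'vars i hij
      rw [mem_sdiff] at hi
      have hiv : i ∈ vars (π.cl t') := mem_image.2 ⟨(i, e), hCcl he, rfl⟩
      have hil' : i ∈ l'.toFinset := (mem_union.1 (hvars' hiv)).resolve_left hi.2
      have hil : i ∈ l.toFinset := by rw [hlT]; exact hi.1
      have hnd := hreg _ _ (hl.append hpath)
      rw [List.nodup_append'] at hnd
      exact hnd.2.2 (List.mem_toFinset.1 hil) (List.mem_toFinset.1 hil')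
  have hmass := mass_outside hgood hs0 hsmax (by rwa [Fintype.card_fin]) hLc hq T tz w
    (fun x => by simp only [hw]; positivity) hw1 B hBad
  have hS2 : ∀ x, (S a b (T x) (tz x)).card ≤ s := by
    intro x
    rw [← hs0]
    refine card_le_card fun j hj => ?_
    rw [mem_S, mem_V] at hj ⊢
    obtain ⟨z, -, hz⟩ := hj
    exact ⟨z, by simp [Agree], hz⟩
  have hBc : Bᶜ.card ≤ 2 ^ (2 * r) * N := by
    have hNc : (univ : Finset (Fin N)).card = N := by rw [card_univ, Fintype.card_fin]
    rw [← hNc]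
    refine Finset.card_le_mul_card_image_of_maps_to (f := t) (fun _ _ => mem_univ _)
      (2 ^ (2 * r)) ?_
    intro u _
    rcases (Bᶜ.filter fun x => t x = u).eq_empty_or_nonempty with h | ⟨x, hx⟩
    · rw [h]; simp
    · rw [mem_filter, hB, mem_compl, mem_filter] at hx
      push Not at hx
      obtain ⟨hx1, hxu⟩ := hx
      obtain ⟨hx2, hx3⟩ := hx1 (mem_univ _)
      have h1 : (Bᶜ.filter fun x => t x = u).card ≤ 2 ^ (vars (π.cl u))ᶜ.card := by
        refine le_trans (card_le_card ?_) (card_fal_le (π.cl u))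
        intro y hy
        rw [mem_filter] at hy
        rw [mem_filter]
        refine ⟨mem_univ _, ?_⟩
        have := (hinv y).2.1
        rw [← hy.2]
        exact this
      refine h1.trans (Nat.pow_le_pow_right (by norm_num) ?_)
      rw [hxu] at hx3
      have h2 : (T x).card ≤ (T x \ vars (π.cl u)).card + (vars (π.cl u)).card := by
        have := card_le_card (subset_union_left (s₁ := T x) (s₂ := vars (π.cl u)))
        rw [← sdiff_union_self_eq_union] at this
        exact this.trans (card_union_le _ _)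
      rw [card_compl, Fintype.card_fin]
      omega
  have hs1 : (0 : ℝ) < s := by exact_mod_cast hs
  have hbound : ∑ x ∈ Bᶜ, w x * (nu a (T x) : ℝ) * ((S a b (T x) (tz x)).card : ℝ) ≤
      2 ^ (2 * r) * N * s := by
    calc ∑ x ∈ Bᶜ, w x * (nu a (T x) : ℝ) * ((S a b (T x) (tz x)).card : ℝ)
        ≤ ∑ x ∈ Bᶜ, (s : ℝ) := by
          refine Finset.sum_le_sum fun x _ => ?_
          have h1 : w x * (nu a (T x) : ℝ) ≤ 1 := by
            have h2 : (nu a (T x) : ℝ) ≤ 2 ^ (T x)ᶜ.card := by exact_mod_cast nu_le a (T x)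
            calc w x * (nu a (T x) : ℝ) ≤ (1 / 2) ^ (T x)ᶜ.card * 2 ^ (T x)ᶜ.card := by
                  simp only [hw]
                  gcongr
              _ = 1 := by rw [← mul_pow]; norm_num
          have h3 : ((S a b (T x) (tz x)).card : ℝ) ≤ s := by exact_mod_cast hS2 x
          calc w x * (nu a (T x) : ℝ) * ((S a b (T x) (tz x)).card : ℝ) ≤ 1 * s := by
                gcongr
            _ = s := one_mul _
      _ = (Bᶜ.card : ℝ) * s := by rw [Finset.sum_const, nsmul_eq_mul]
      _ ≤ 2 ^ (2 * r) * N * s := by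
          gcongr
          exact_mod_cast hBc
  have h5 : (nu a ∅ : ℝ) ≤ 2 ^ (2 * r + 1) * N := by
    refine le_of_mul_le_mul_right ?_ hs1
    calc (nu a ∅ : ℝ) * s ≤ 2 * (2 ^ (2 * r) * N * s) := hmass.trans (by gcongr)
      _ = _ := by rw [pow_succ]; ring
  have h7 := two_pow_le_nu a
  rw [Fintype.card_fin, Fintype.card_fin] at h7
  have h8 : (2 : ℝ) ^ n ≤ 2 ^ M * nu a ∅ := by exact_mod_cast h7
  calc (2 : ℝ) ^ n ≤ 2 ^ M * nu a ∅ := h8
    _ ≤ 2 ^ M * (2 ^ (2 * r + 1) * N) := by gcongr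
    _ = 2 ^ (M + 2 * r + 1) * N := by rw [pow_add 2 (M + 2 * r), pow_add, pow_add]; ring

/-- For every `k ≥ 2` and all large `n` there is an unsatisfiable `k`-CNF formula on `n` variables
all of whose regular resolution refutations have at least `2 ^ ((1 - 768 log₂ k / √k) n)`
clauses. -/
theorem result : ∀ k : ℕ, 2 ≤ k → ∃ n0 : ℕ, ∀ n, n0 ≤ n → ∃ F : CNF n, IsKCNF k F ∧ Unsat F ∧
    ∀ (N : ℕ) (π : Refutation F N), Regular π →
      (2 : ℝ) ^ ((1 - 768 * Real.logb 2 k / √(k : ℝ)) * n) ≤ N := by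
  intro k hk
  obtain ⟨n0, hn0⟩ := final_choice hk
    (fun _ F W => ∃ (N : ℕ) (π : Refutation F N), Regular π ∧ (N : ℝ) = W) (by
      rintro n F _ ⟨N, π, -, rfl⟩
      have : 1 ≤ N := by
        have := π.root.2
        omega
      exact_mod_cast this) core
  refine ⟨n0, fun n hn => ?_⟩
  obtain ⟨F, hF1, hF2, hF3⟩ := hn0 n hn
  exact ⟨F, hF1, hF2, fun N π hreg => hF3 _ ⟨N, π, hreg, rfl⟩⟩

end Pool.Agent.H73.Old.RegularSETH
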