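import Pool.Agent.H73.Blk.Params

/-!
# Some `k`-CNF formulas need resolution width `(1 - O(log k / √k)) n`
-/

open Finset Pool.Agent.H73.Xor Pool.Agent.H73.Blk

namespace Pool.Agent.H73.Old.WidthSETH

lemma exists_level' (K : ℕ → ℕ) (hK : ∀ ℓ, ℓ < K ℓ) {k ℓ0 : ℕ} (h0 : K ℓ0 ≤ k) :
    ∃ ℓ, ℓ0 ≤ ℓ ∧ K ℓ ≤ k ∧ k < K (ℓ + 1) := by
  classical
  have hex : ∃ ℓ, ℓ0 ≤ ℓ ∧ k < K ℓ :=
    ⟨max ℓ0 k, le_max_left _ _, lt_of_le_of_lt (le_max_right _ _) (hK _)⟩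
  obtain ⟨hm1, hm2⟩ := Nat.find_spec hex
  set m := Nat.find hex with hm
  have hne : m ≠ ℓ0 := by
    intro h
    rw [h] at hm2
    omega
  obtain ⟨ℓ, hℓ⟩ : ∃ ℓ, m = ℓ + 1 := ⟨m - 1, by omega⟩
  refine ⟨ℓ, by omega, ?_, ?_⟩
  · by_contra hcon
    have := Nat.find_min hex (m := ℓ) (by omega)
    exact this ⟨by omega, by omega⟩
  · rw [← hℓ]; exact hm2

lemma ineq1 (ℓ : ℕ) : 2 * ((4 * ℓ + 24) * 2 ^ ℓ) + (2 * ℓ + 11) + 1 ≤ 2 ^ (2 * ℓ + 13) := by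
  have h1 : ℓ + 6 ≤ 2 ^ (ℓ + 5) := by
    induction ℓ with
    | zero => norm_num
    | succ ℓ ih =>
      have : 2 ^ (ℓ + 1 + 5) = 2 * 2 ^ (ℓ + 5) := by ring
      omega
  have h2 : 2 ^ (2 * ℓ + 13) = 256 * (2 ^ (ℓ + 5) * 2 ^ ℓ) := by
    rw [← pow_add, show (256 : ℕ) = 2 ^ 8 by norm_num, ← pow_add]
    congr 1; ring
  have h3 : (ℓ + 6) * 2 ^ ℓ ≤ 2 ^ (ℓ + 5) * 2 ^ ℓ := Nat.mul_le_mul_right _ h1
  have h4 : ℓ + 6 ≤ (ℓ + 6) * 2 ^ ℓ := Nat.le_mul_of_pos_right _ (by positivity)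
  calc 2 * ((4 * ℓ + 24) * 2 ^ ℓ) + (2 * ℓ + 11) + 1
      = 8 * ((ℓ + 6) * 2 ^ ℓ) + 2 * (ℓ + 6) := by ring
    _ ≤ 8 * ((ℓ + 6) * 2 ^ ℓ) + 2 * ((ℓ + 6) * 2 ^ ℓ) := by omega
    _ ≤ 256 * (2 ^ (ℓ + 5) * 2 ^ ℓ) := by omega
    _ = _ := h2.symm

theorem core {k : ℕ} (ℓ : ℕ) (hℓ : 2 ≤ ℓ) (hk : 2 ^ (2 * ℓ + 7) * (ℓ + 6) ^ 2 ≤ k) :
    ∃ n0, ∀ n, n0 ≤ n → ∃ F : CNF n, IsKCNF k F ∧ Unsat F ∧
      ∀ (N : ℕ) (π : Refutation F N), ∃ t, (n - (π.cl t).card) * 2 ^ ℓ ≤ 3 * n := by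
  classical
  set d := 4 * ℓ + 24 with hd
  set m := d * 2 ^ ℓ with hm
  have h2l : 0 < 2 ^ ℓ := by positivity
  have hdm : d ≤ m := Nat.le_mul_of_pos_right _ h2l
  refine ⟨m * (2 ^ ℓ * 4), fun n hn => ?_⟩
  obtain ⟨M, P, hM, hE, hF, htouch, hblk, hroot, hrhs⟩ := exists_sys ℓ m n hℓ hdm (ineq1 ℓ) hn
  refine ⟨P.cnf, cnf_kcnf P fun j => (htouch j).trans (le_trans (le_of_eq ?_) hk),
    cnf_unsat P hrhs, fun N π => ?_⟩
  · rw [hm, hd, pow_add, pow_add, two_mul, pow_add]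
    ring
  obtain ⟨u, l, X, -, hR, -, -⟩ := walk_main (π := π) hE hF (by omega) hM
    (fun i => by rw [hblk i]; exact hdm) hroot (fun _ => false)
  refine ⟨u, ?_⟩
  have hBm : n / m * m ≤ n := Nat.div_mul_le_self n m
  have hmpos : 0 < m := by omega
  have h1 : (vars (π.cl u))ᶜ.card ≤ (n - n / m * m) + n / m / 2 ^ ℓ * m + n / m * d :=
    card_compl_vars hblk hR hBm
  have h2 : (vars (π.cl u)).card ≤ (π.cl u).card := card_image_le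
  have h3 : (vars (π.cl u))ᶜ.card = n - (vars (π.cl u)).card := by
    rw [card_compl, Fintype.card_fin]
  have h4 : n - (π.cl u).card ≤ (n - n / m * m) + n / m / 2 ^ ℓ * m + n / m * d := by omega
  have h5 : (n - n / m * m) * 2 ^ ℓ ≤ n := by
    have : n - n / m * m ≤ m := by
      have := Nat.lt_div_mul_add (a := n) hmpos
      omega
    calc (n - n / m * m) * 2 ^ ℓ ≤ m * 2 ^ ℓ := Nat.mul_le_mul_right _ this
      _ ≤ m * (2 ^ ℓ * 4) := Nat.mul_le_mul_left _ (by omega)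
      _ ≤ n := hn
  have h6 : n / m / 2 ^ ℓ * m * 2 ^ ℓ ≤ n := by
    calc n / m / 2 ^ ℓ * m * 2 ^ ℓ = (n / m / 2 ^ ℓ * 2 ^ ℓ) * m := by ring
      _ ≤ (n / m) * m := Nat.mul_le_mul_right _ (Nat.div_mul_le_self _ _)
      _ ≤ n := hBm
  have h7 : n / m * d * 2 ^ ℓ ≤ n := by
    calc n / m * d * 2 ^ ℓ = n / m * m := by rw [hm]; ring
      _ ≤ n := hBm
  calc (n - (π.cl u).card) * 2 ^ ℓ
      ≤ ((n - n / m * m) + n / m / 2 ^ ℓ * m + n / m * d) * 2 ^ ℓ := Nat.mul_le_mul_right _ h4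
    _ = (n - n / m * m) * 2 ^ ℓ + n / m / 2 ^ ℓ * m * 2 ^ ℓ + n / m * d * 2 ^ ℓ := by ring
    _ ≤ 3 * n := by omega

lemma trivial_range {k : ℕ} (hk2 : 2 ≤ k) (hk : k < 2 ^ 17) :
    1 ≤ 40 * Real.logb 2 k / √(k : ℝ) := by
  have hkR : (2 : ℝ) ≤ k := by exact_mod_cast hk2
  have hlog1 : 1 ≤ Real.logb 2 k := by
    rw [Real.le_logb_iff_rpow_le (by norm_num) (by linarith)]
    simpa using hkR
  have hsq : 0 < √(k : ℝ) := Real.sqrt_pos.2 (by linarith)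
  rw [le_div_iff₀ hsq, one_mul]
  rcases le_or_gt k 1600 with h | h
  · have : √(k : ℝ) ≤ 40 := by
      rw [Real.sqrt_le_left (by norm_num)]
      have : (k : ℝ) ≤ 1600 := by exact_mod_cast h
      norm_num at this ⊢
      exact this
    linarith
  · have h18 : 10 ≤ Real.logb 2 k := by
      rw [Real.le_logb_iff_rpow_le (by norm_num) (by linarith)]
      have : (1600 : ℝ) ≤ k := by exact_mod_cast h.le
      norm_num at this ⊢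
      linarith
    have : √(k : ℝ) ≤ 400 := by
      rw [Real.sqrt_le_left (by norm_num)]
      have : (k : ℝ) ≤ 2 ^ 17 := by exact_mod_cast hk.le
      norm_num at this ⊢
      linarith
    linarith

lemma level_bound {k ℓ : ℕ} (hℓ : 2 ≤ ℓ) (h1 : 2 ^ (2 * ℓ + 7) * (ℓ + 6) ^ 2 ≤ k)
    (h2 : k < 2 ^ (2 * ℓ + 9) * (ℓ + 7) ^ 2) :
    3 / 2 ^ ℓ ≤ 40 * Real.logb 2 k / √(k : ℝ) := by
  have hkpos : 0 < k :=
    lt_of_lt_of_le (Nat.mul_pos (Nat.pow_pos (by norm_num)) (Nat.pow_pos (by omega))) h1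
  have hkR : (0 : ℝ) < k := by exact_mod_cast hkpos
  have hsq : 0 < √(k : ℝ) := Real.sqrt_pos.2 hkR
  have hsqle : √(k : ℝ) ≤ 23 * 2 ^ ℓ * (ℓ + 7) := by
    have hnn : (0 : ℝ) ≤ 23 * 2 ^ ℓ * (ℓ + 7) :=
      mul_nonneg (mul_nonneg (by norm_num) (pow_nonneg (by norm_num) _))
        (add_nonneg (Nat.cast_nonneg _) (by norm_num))
    rw [Real.sqrt_le_left hnn]
    have h3 : (k : ℝ) ≤ 2 ^ (2 * ℓ + 9) * (ℓ + 7) ^ 2 := by exact_mod_cast h2.le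
    refine h3.trans ?_
    have h4 : (23 * 2 ^ ℓ * ((ℓ : ℝ) + 7)) ^ 2 = 529 * (2 ^ (2 * ℓ) * (ℓ + 7) ^ 2) := by
      rw [mul_pow, mul_pow, ← pow_mul, mul_comm ℓ 2]
      ring
    have h5 : (2 : ℝ) ^ (2 * ℓ + 9) * (ℓ + 7) ^ 2 = 512 * (2 ^ (2 * ℓ) * (ℓ + 7) ^ 2) := by
      rw [pow_add]
      ring
    rw [h4, h5]
    have h6 : (0 : ℝ) ≤ 2 ^ (2 * ℓ) * (ℓ + 7) ^ 2 :=
      mul_nonneg (pow_nonneg (by norm_num) _) (sq_nonneg _)
    linarith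
  have hlog : (2 * ℓ + 13 : ℝ) ≤ Real.logb 2 k := by
    rw [Real.le_logb_iff_rpow_le (by norm_num) hkR]
    have h4 : 2 ^ (2 * ℓ + 13) ≤ k := by
      refine le_trans ?_ h1
      have : 2 ^ (2 * ℓ + 13) = 2 ^ (2 * ℓ + 7) * 8 ^ 2 := by
        rw [show (8 : ℕ) ^ 2 = 2 ^ 6 by norm_num, ← pow_add]
      rw [this]
      exact Nat.mul_le_mul_left _ (Nat.pow_le_pow_left (by omega) _)
    have h5 : ((2 : ℝ) ^ (2 * ℓ + 13 : ℕ)) ≤ k := by exact_mod_cast h4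
    have h6 : (2 * ℓ + 13 : ℝ) = ((2 * ℓ + 13 : ℕ) : ℝ) := by push_cast; ring
    rw [h6, Real.rpow_natCast]
    exact h5
  have hℓR : (2 : ℝ) ≤ ℓ := by exact_mod_cast hℓ
  have h2l : (0 : ℝ) < 2 ^ ℓ := by positivity
  rw [div_le_div_iff₀ h2l hsq]
  calc 3 * √(k : ℝ) ≤ 3 * (23 * 2 ^ ℓ * (ℓ + 7)) := by linarith
    _ = (69 * (ℓ + 7)) * 2 ^ ℓ := by ring
    _ ≤ (40 * Real.logb 2 k) * 2 ^ ℓ := by
        refine mul_le_mul_of_nonneg_right ?_ h2l.le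
        linarith

/-- For every `k ≥ 2` and all large `n` there is an unsatisfiable `k`-CNF formula on `n` variables
all of whose resolution refutations contain a clause with at least
`(1 - 40 log₂ k / √k) n` literals. -/
theorem result : ∀ k : ℕ, 2 ≤ k → ∃ n0 : ℕ, ∀ n, n0 ≤ n → ∃ F : CNF n, IsKCNF k F ∧ Unsat F ∧
    ∀ (N : ℕ) (π : Refutation F N), ∃ t : Fin N,
      (1 - 40 * Real.logb 2 k / √(k : ℝ)) * n ≤ ((π.cl t).card : ℝ) := by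
  intro k hk2
  rcases lt_or_ge k (2 ^ 17) with hk | hk
  · refine ⟨1, fun n hn => ?_⟩
    obtain ⟨n', rfl⟩ : ∃ n', n = n' + 1 := ⟨n - 1, by omega⟩
    refine ⟨{{(0, true)}, {(0, false)}}, ?_, ?_, ?_⟩
    · intro C hC
      rw [mem_insert, mem_singleton] at hC
      rcases hC with rfl | rfl <;> simp <;> omega
    · intro x
      cases hx : x 0
      · exact ⟨{(0, true)}, by simp, by simp [Satisfies, hx]⟩
      · exact ⟨{(0, false)}, by simp, by simp [Satisfies, hx]⟩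
    · intro N π
      refine ⟨π.root, le_trans ?_ (Nat.cast_nonneg _)⟩
      refine mul_nonpos_of_nonpos_of_nonneg ?_ (Nat.cast_nonneg _)
      have := trivial_range hk2 hk
      linarith
  · obtain ⟨ℓ, hℓ, hℓ1, hℓ2⟩ := exists_level' (fun ℓ => 2 ^ (2 * ℓ + 7) * (ℓ + 6) ^ 2)
      (fun ℓ => by
        calc ℓ < 2 ^ ℓ := Nat.lt_two_pow_self
          _ ≤ 2 ^ (2 * ℓ + 7) := Nat.pow_le_pow_right (by norm_num) (by omega)
          _ ≤ _ := Nat.le_mul_of_pos_right _ (Nat.pow_pos (by omega)))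
      (k := k) (ℓ0 := 2) (by
        refine le_trans (le_of_eq ?_) hk
        norm_num)
    have h1 : 2 * (ℓ + 1) + 7 = 2 * ℓ + 9 := by ring
    have h2 : ℓ + 1 + 6 = ℓ + 7 := by ring
    simp only [h1, h2] at hℓ2
    obtain ⟨n0, hn0⟩ := core ℓ hℓ hℓ1
    refine ⟨n0, fun n hn => ?_⟩
    obtain ⟨F, hFk, hFu, hF⟩ := hn0 n hn
    refine ⟨F, hFk, hFu, fun N π => ?_⟩
    obtain ⟨t, ht⟩ := hF N π
    refine ⟨t, ?_⟩
    have hlb := level_bound hℓ hℓ1 hℓ2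
    have h3 : ((n : ℝ) - (π.cl t).card) * 2 ^ ℓ ≤ 3 * n := by
      rcases le_or_gt (π.cl t).card n with h | h
      · have : (((n - (π.cl t).card : ℕ) : ℝ)) * 2 ^ ℓ ≤ 3 * n := by exact_mod_cast ht
        rwa [Nat.cast_sub h] at this
      · have h4 : (n : ℝ) - (π.cl t).card ≤ 0 := by
          have : (n : ℝ) < (π.cl t).card := by exact_mod_cast h
          linarith
        have h5 : ((n : ℝ) - (π.cl t).card) * 2 ^ ℓ ≤ 0 :=
          mul_nonpos_of_nonpos_of_nonneg h4 (by positivity)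
        have h6 : (0 : ℝ) ≤ 3 * n := by positivity
        linarith
    have h4 : (n : ℝ) - (π.cl t).card ≤ 3 / 2 ^ ℓ * n := by
      rw [div_mul_eq_mul_div, le_div_iff₀ (by positivity)]
      exact h3
    have h5 : 3 / 2 ^ ℓ * (n : ℝ) ≤ 40 * Real.logb 2 k / √(k : ℝ) * n :=
      mul_le_mul_of_nonneg_right hlb (Nat.cast_nonneg _)
    have h6 : (1 - 40 * Real.logb 2 k / √(k : ℝ)) * (n : ℝ) =
        n - 40 * Real.logb 2 k / √(k : ℝ) * n := by ring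
    rw [h6]
    linarith

end Pool.Agent.H73.Old.WidthSETH
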